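import Pool.Agent.HT177.Split.FF

/-!
# The number of good curves in arbitrary sequences of quadratic twists over `F_q(t)`, `q` fixed

Let `k` be a finite field of characteristic different from `2` in which `-1` is a square, `K = k(t)`, and
let `E : y² = x (x - a) (x - b)` be an elliptic curve over `K`, where `a`, `b` are coprime polynomials, `a`,
`b`, `a - b` have the same degree `N` and none of `a b`, `a (a - b)`, `b (a - b)` is a constant multiple of
a square. `E_D : y² = x (x - a D) (x - b D)` are the quadratic twists of `E`. Let `NonSplitTwists a b n` be
the set of the monic squarefree polynomials `D` of degree `n`, prime to `a b (a - b)`, for which `E_D` has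
non-split multiplicative reduction at all the finite places at which `E` has bad reduction, and let `n` go to
infinity through the numbers with `n + N` odd. Let `m_0, m_1, m_2, …` be ANY sequence of different monic
squarefree polynomials of even degree that are nonzero squares modulo all the prime divisors of
`a b (a - b)`.
A curve is called good if its group of points over `K` is finite and the 2-primary part of its
Tate-Shafarevich group over `K` is zero (the Birch and Swinnerton-Dyer conjecture holds for it, by Artin,
Tate and Milne). Let `c = ∏_{i odd} (1 - 2^{-i}) = 0.4194…`.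

* The number of the good curves among `E_{D m_0}, …, E_{D m_{J-1}}` is binomially distributed with the
  parameters `J` and `c`: for every `j` the proportion of the `D` for which it is `j` converges to
  `J choose j * c^j * (1 - c)^(J - j)`.
* For every `ε` the `D` for which the frequency of the good curves among the first `J` differs from `c` by
  at least `ε` have a limit proportion, which is at most `2 exp (- ε² J / 4)`.
* For every `M`, for `100 %` of the `D` at least `M` of the curves `E_{D m_i}` are good.
-/

set_option autoImplicit false

namespace Pool.Agent.Results.MP_ff7320_nt.GoodTwistsBinomialLaw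

open Polynomial Filter Pool.Agent.TH115.GD Pool.Agent.HT177.Split.FF

theorem result (k : Type) [Field k] [Finite k] (h2 : (2 : k) ≠ 0) (hi : IsSquare (-1 : k))
    (K : Type) [Field K] [Algebra k[X] K] [IsFractionRing k[X] K] (a b : k[X]) (N : ℕ)
    (hco : IsCoprime a b) (ha : a.natDegree = N) (hb : b.natDegree = N)
    (hab : (a - b).natDegree = N) (h₁ : NotConstSquare (a * b))
    (h₂ : NotConstSquare (a * (a - b))) (h₃ : NotConstSquare (b * (a - b)))
    (m : ℕ → k[X]) (hm : ∀ i, Multiplier a b (m i)) (hinj : Function.Injective m) :
    (∀ J j : ℕ, Tendsto (proportion a b fun D =>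
      number m (fun F => Good k (twist K a b F)) J D = j) (degrees N)
        (nhds (J.choose j * law 0 ^ j * (1 - law 0) ^ (J - j)))) ∧
    (∀ J : ℕ, 0 < J → ∀ ε : ℝ, 0 < ε → ∃ l : ℝ, l ≤ 2 * Real.exp (-(ε ^ 2 * J / 4)) ∧
      Tendsto (proportion a b fun D =>
        ε ≤ |(number m (fun F => Good k (twist K a b F)) J D : ℝ) / J - law 0|) (degrees N) (nhds l)) ∧
    (∀ M : ℕ, Tendsto (proportion a b fun D => ∃ F : Finset ℕ, F.card = M ∧ ∀ i ∈ F,
      Good k (twist K a b (D * m i))) (degrees N) (nhds 1)) ∧
    0.4194 < law 0 ∧ law 0 < 0.4195 := by
  obtain ⟨h1, h2, -, -, -, h6, -, h8, h9⟩ := all k h2 hi K a b N hco ha hb hab h₁ h₂ h₃ m hm hinj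
  exact ⟨h1, h2, h6, h8, h9⟩

end Pool.Agent.Results.MP_ff7320_nt.GoodTwistsBinomialLaw
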