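import Pool.Agent.Q282.PC.Fam
import Pool.Agent.Q282.PC.Spec

/-!
# All moments of the leading coefficients of L-functions in families over `k(t)` are bounded by powers of the degree

Let `F` be a finite field with `q` elements, `G` a set of polynomials over `F` in `x_1, ..., x_s`, the parameter `t` and the
parameters `u = (u_i)`, `i` in the finite set `ι`, and `H` a set of polynomials in `z_1, ..., z_r` and `t` (a curve over the line,
given by a finite extension `L` of `F(t)`; for `L = F(t)` the set `H` is empty and `r = 0`). The fibre of `G` over `(t, u)` lies over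
the fibre of `H` over `t`. The set `Z` of polynomials in `t` and `u` gives the open set `U` where some element of `Z` is not zero.
For a tuple `f` of polynomials in `t` let `V_f` be the variety of the `(t, x)` with `x` in the fibre over `(t, f(t))`.
-/

set_option autoImplicit false

namespace Pool.Agent.Results.MP_ff7320_nt.MomentsOfLeadingCoefficients

open Finset Polynomial
open Q282PB (MapsTo lst)
open Q282PC (IsFamily IsSpectrum ext)

/-- **Main theorem.** Let `n ≥ 1` and `|γ| = q ^ ((w + 1) / 2)`. For all tuples `h` of polynomials of degree less than `n` let `α h`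
be a multiset of complex numbers and `B' h` a real number. Let `Λ h` be the product of the `|1 - a / γ|` for the `a` in `α h` not
equal to `γ`, and `ρ h` the multiplicity of `γ` in `α h`. For all `k ≥ 0` the average over `h` of
`(Λ h / exp ((ρ h + (3 + deg D) C) (1 + log n) + 3 B' h)) ^ k`, counted `0` if not all points `(t, f(t))`, `f = g + h`, lie in `U` or if
the eigenvalues of `V_f` of size `q ^ ((w + 1) / 2)` are not `α h`, `#(α h) ≤ κ n`, with at most `B' h` others, is at most
`3 exp (k (4 κ + 1) (1 + 88 C ^ 2 (1 + log n) exp (k (4 κ + 1) + 1)))`. -/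
theorem result {F : Type} [Field F] [Fintype F] {s r : ℕ} {ι : Type} [Fintype ι] (G : Set (MvPolynomial (Fin s ⊕ Option ι) F))
    (H : Set (MvPolynomial (Fin r ⊕ Unit) F)) (Z : Set (MvPolynomial (Option ι) F)) (D : F[X]) (hD : D ≠ 0)
    (w : ℕ) (c : ℕ → ℝ) (C κ : ℝ) (hC : 0 < C) (hκ : 0 ≤ κ) (hfam : IsFamily G H Z D w c C)
    (g : ι → F[X]) (n : ℕ) (hn : 1 ≤ n) (γ : ℂ) (hγ : ‖γ‖ = Real.sqrt (Fintype.card F) ^ (w + 1))
    (α : (ι → degreeLT F n) → Multiset ℂ) (B' : (ι → degreeLT F n) → ℝ) (k : ℝ) (hk : 0 ≤ k) :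
    ∑ᶠ h ∈ {h : ι → degreeLT F n | MapsTo Z (ext fun i => g i + (h i).1) ∧
        IsSpectrum G H w c (fun i => g i + (h i).1) (κ * n) (B' h) (α h)},
      (lst (α h) γ / Real.exp (((α h).count γ + (3 + D.natDegree) * C) * (1 + Real.log n) + 3 * B' h)) ^ k ≤
    3 * Real.exp (k * (4 * κ + 1) * (1 + 88 * C ^ 2 * (1 + Real.log n) * Real.exp (k * (4 * κ + 1) + 1))) *
      Nat.card (ι → degreeLT F n) := by
  classical
  obtain ⟨rr, hr, hps⟩ := Q282PC.pow_sum F
  have hmu := fun m => Q282PC.mu_le hr hC.le hfam m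
  have hY := fun v u => Q282PC.YY_abs hC.le hfam v u
  have hC₂ : 0 ≤ (2 + (D.natDegree : ℝ)) * C := by positivity
  have h1 := Q282PC.moments hr hC.le hY hmu hC₂ hC κ hκ g n hn γ hγ α B'
    (univ.filter fun h : ι → degreeLT F n => MapsTo Z (ext fun i => g i + (h i).1) ∧
      IsSpectrum G H w c (fun i => g i + (h i).1) (κ * n) (B' h) (α h)) (fun h hh => by
      rw [mem_filter] at hh
      exact hps s r ι G H Z D hD w c C hC.le hfam _ hh.2.1 _ _ (α h) hh.2.2) k hk
  rw [Nat.card_eq_fintype_card]
  refine le_trans (le_of_eq ?_) h1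
  rw [finsum_mem_eq_finite_toFinset_sum _ (Set.toFinite _)]
  refine sum_congr ?_ fun h _ => ?_
  · ext h
    rw [Set.Finite.mem_toFinset, mem_filter]
    exact ⟨fun h => ⟨mem_univ _, h⟩, fun h => h.2⟩
  · have e : ((α h).count γ + (3 + (D.natDegree : ℝ)) * C) = (α h).count γ + C + (2 + (D.natDegree : ℝ)) * C := by ring
    rw [e]

end Pool.Agent.Results.MP_ff7320_nt.MomentsOfLeadingCoefficients
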