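import Pool.Agent.Q282.PC.Fam

/-!
# Orders of vanishing over every finite extension of `k(t)`: tails and exponential moments in families of abelian varieties

Let `F` be a finite field with `q` elements, `G` a set of polynomials over `F` in `x_1, ..., x_s`, the parameter `t` and the
parameters `u = (u_i)`, `i` in the finite set `ι`, and `H` a set of polynomials in `z_1, ..., z_r` and `t` (a curve over the line,
given by a finite extension `L` of `F(t)`; for `L = F(t)` the set `H` is empty and `r = 0`). The fibre of `G` over `(t, u)` lies over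
the fibre of `H` over `t`. The set `Z` of polynomials in `t` and `u` gives the open set `U` where some element of `Z` is not zero.
For a tuple `f` of polynomials in `t` let `V_f` be the variety of the `(t, x)` with `x` in the fibre over `(t, f(t))`.
-/

set_option autoImplicit false

namespace Pool.Agent.Results.MP_ff7320_nt.OrdersInEveryExtension

open Finset Polynomial
open Q282PB (MapsTo)
open Q282PC (IsFamily IsSpectrum ext)

/-- The number of the elements of the multiset `α` at distance at most `ρ` from `γ`. -/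
noncomputable def near (α : Multiset ℂ) (γ : ℂ) (ρ : ℝ) : ℕ :=
  open Classical in Multiset.card (α.filter fun a => ‖a - γ‖ ≤ ρ)

lemma near_eq (α : Multiset ℂ) (γ : ℂ) (ρ : ℝ) : Q282PB.nr α (fun _ : Unit => (1 : ℂ)) γ ρ = near α γ ρ := by
  classical
  unfold Q282PB.nr near
  simp

/-- **Main theorem.** Let `n ≥ 1`, `|γ| = R = q ^ ((w + 1) / 2)` and `M = 100 (κ + (1 + deg D) C)`.

(1) For all `K ≥ 1`, for all tuples `h` of polynomials of degree less than `n` but at most a proportion `2 / K ^ K`: if, for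
`f = g + h`, all points `(t, f(t))` lie in `U` and `V_f` has at most `κ n` eigenvalues `α` of size `R` and at most `κ n` others, then
at most `M K` of the eigenvalues `α` have distance at most `2 K R / n` from `γ`.

(2) For all `σ ≥ 0` the average of `exp (σ N / M)`, `N` the number of the eigenvalues `α` at distance at most `2 R / n` from `γ`, is
at most `3 exp (σ + exp σ)`. -/
theorem result {F : Type} [Field F] [Fintype F] {s r : ℕ} {ι : Type} [Fintype ι] (G : Set (MvPolynomial (Fin s ⊕ Option ι) F))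
    (H : Set (MvPolynomial (Fin r ⊕ Unit) F)) (Z : Set (MvPolynomial (Option ι) F)) (D : F[X]) (hD : D ≠ 0)
    (w : ℕ) (c : ℕ → ℝ) (C κ : ℝ) (hC : 0 < C) (hκ : 0 ≤ κ) (hfam : IsFamily G H Z D w c C)
    (g : ι → F[X]) (n : ℕ) (hn : 1 ≤ n) (γ : ℂ) (hγ : ‖γ‖ = Real.sqrt (Fintype.card F) ^ (w + 1)) :
    (∀ K : ℕ, 1 ≤ K →
      (Nat.card {h : ι → degreeLT F n // MapsTo Z (ext fun i => g i + (h i).1) ∧
        ∃ α : Multiset ℂ, IsSpectrum G H w c (fun i => g i + (h i).1) (κ * n) (κ * n) α ∧
          100 * (κ + (1 + D.natDegree) * C) * K < near α γ (2 * K * Real.sqrt (Fintype.card F) ^ (w + 1) / n)} : ℝ) ≤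
        2 / (K : ℝ) ^ K * Nat.card (ι → degreeLT F n)) ∧
    ∀ (α : (ι → degreeLT F n) → Multiset ℂ) (σ : ℝ), 0 ≤ σ →
      ∑ᶠ h ∈ {h : ι → degreeLT F n | MapsTo Z (ext fun i => g i + (h i).1) ∧
          IsSpectrum G H w c (fun i => g i + (h i).1) (κ * n) (κ * n) (α h)},
        Real.exp (σ * (near (α h) γ (2 * Real.sqrt (Fintype.card F) ^ (w + 1) / n) / (100 * (κ + (1 + D.natDegree) * C)))) ≤
      3 * Real.exp (σ + Real.exp σ) * Nat.card (ι → degreeLT F n) := by
  classical
  obtain ⟨rr, hr, hps⟩ := Q282PC.pow_sum F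
  have hmu := fun m => Q282PC.mu_le hr hC.le hfam m
  have hY := fun v u => Q282PC.YY_abs hC.le hfam v u
  obtain ⟨δ, hδ⟩ : ∃ δ : ℝ, δ = D.natDegree := ⟨_, rfl⟩
  have hδ0 : 0 ≤ δ := by
    rw [hδ]
    exact Nat.cast_nonneg _
  have hC₂ : 0 ≤ (2 + (D.natDegree : ℝ)) * C := by positivity
  have hM : 96 * κ + 60 * C + 4 * ((2 + (D.natDegree : ℝ)) * C) ≤ 100 * (κ + (1 + D.natDegree) * C) := by
    rw [← hδ]
    have : 0 ≤ δ * C := mul_nonneg hδ0 hC.le
    nlinarith
  have hM0 : 0 < 96 * κ + 60 * C + 4 * ((2 + (D.natDegree : ℝ)) * C) := by positivity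
  refine ⟨fun K hK => ?_, fun α σ hσ => ?_⟩
  · have h1 := Q282PC.tails hr hC.le hY hmu hC₂ hC κ hκ g n K hn hK (J := Unit) (fun _ => 1) (fun _ => norm_one) γ hγ
    rw [Nat.card_eq_fintype_card, Nat.card_eq_fintype_card, Fintype.card_subtype]
    refine le_trans (Nat.cast_le.2 (card_le_card ?_)) h1
    intro h hh
    rw [mem_filter] at hh ⊢
    obtain ⟨-, hmap, α, hα, hlt⟩ := hh
    refine ⟨mem_univ _, α, hps s r ι G H Z D hD w c C hC.le hfam _ hmap _ _ α hα, ?_⟩
    rw [near_eq, Fintype.card_unit, Nat.cast_one, mul_one]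
    exact lt_of_le_of_lt (mul_le_mul_of_nonneg_right hM (Nat.cast_nonneg _)) hlt
  · have h1 := Q282PC.exps hr hC.le hY hmu hC₂ hC κ hκ g n hn (J := Unit) (fun _ => 1) (fun _ => norm_one) γ hγ α
      (univ.filter fun h : ι → degreeLT F n => MapsTo Z (ext fun i => g i + (h i).1) ∧
        IsSpectrum G H w c (fun i => g i + (h i).1) (κ * n) (κ * n) (α h)) (fun h hh => by
        rw [mem_filter] at hh
        exact hps s r ι G H Z D hD w c C hC.le hfam _ hh.2.1 _ _ (α h) hh.2.2) σ hσ
    rw [Nat.card_eq_fintype_card]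
    refine le_trans ?_ h1
    rw [finsum_mem_eq_finite_toFinset_sum _ (Set.toFinite _)]
    have h2 : (Set.toFinite {h : ι → degreeLT F n | MapsTo Z (ext fun i => g i + (h i).1) ∧
          IsSpectrum G H w c (fun i => g i + (h i).1) (κ * n) (κ * n) (α h)}).toFinset =
        univ.filter fun h : ι → degreeLT F n => MapsTo Z (ext fun i => g i + (h i).1) ∧
          IsSpectrum G H w c (fun i => g i + (h i).1) (κ * n) (κ * n) (α h) := by
      ext h
      rw [Set.Finite.mem_toFinset, mem_filter]
      exact ⟨fun h => ⟨mem_univ _, h⟩, fun h => h.2⟩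
    rw [h2]
    refine sum_le_sum fun h _ => Real.exp_le_exp.2 (mul_le_mul_of_nonneg_left ?_ hσ)
    rw [near_eq, Fintype.card_unit, Nat.cast_one, mul_one]
    exact div_le_div_of_nonneg_left (Nat.cast_nonneg _) hM0 hM

end Pool.Agent.Results.MP_ff7320_nt.OrdersInEveryExtension
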