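import Pool.Agent.HT177.Split.FF

/-!
# Frequencies of the 2-Selmer ranks and average rank in arbitrary sequences of quadratic twists over `F_q(t)`

Let `k` be a finite field of characteristic different from `2` in which `-1` is a square, `K = k(t)`, and
let `E : y² = x (x - a) (x - b)` be an elliptic curve over `K`, where `a`, `b` are coprime polynomials, `a`,
`b`, `a - b` have the same degree `N` and none of `a b`, `a (a - b)`, `b (a - b)` is a constant multiple of
a square. `E_D : y² = x (x - a D) (x - b D)` are the quadratic twists of `E`. Let `NonSplitTwists a b n` be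
the set of the monic squarefree polynomials `D` of degree `n`, prime to `a b (a - b)`, for which `E_D` has
non-split multiplicative reduction at all the finite places at which `E` has bad reduction, and let `n` go to
infinity through the numbers with `n + N` odd. Let `m_0, m_1, m_2, …` be ANY sequence of different monic
squarefree polynomials of even degree that are nonzero squares modulo all the prime divisors of
`a b (a - b)`.
Let `c = ∏_{i odd} (1 - 2^{-i}) = 0.4194…`.

`law r = c 4^r / ((2 - 1) (2² - 1) ⋯ (2^{2 r} - 1))`, a probability law.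

* For every set `T` of numbers and every `ε` the `D` for which the frequency of the `i < J` such that the
  2-Selmer group of `E_{D m_i}` over `K` has `4 ^ (r + 1)` elements for some `r` in `T` differs from the
  measure of `T` by at least `ε` have a limit proportion, which is at most `2 exp (- ε² J / 4)`.
* For all `D` the groups `E_{D m_i}(K)` are finitely generated, and the average of the numbers
  `min (rank E_{D m_i}(K), 2 B)` over the `i < J` is less than `1.2042 + ε` for all `D` outside a set of
  upper limit proportion at most `2 B exp (- ε² J / (16 B²))`.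
-/

set_option autoImplicit false

namespace Pool.Agent.Results.MP_ff7320_nt.SelmerFrequencies

open Polynomial Filter Pool.Agent.TH115.GD Pool.Agent.HT177.Split.FF
open scoped Classical

theorem result (k : Type) [Field k] [Finite k] (h2 : (2 : k) ≠ 0) (hi : IsSquare (-1 : k))
    (K : Type) [Field K] [Algebra k[X] K] [IsFractionRing k[X] K] (a b : k[X]) (N : ℕ)
    (hco : IsCoprime a b) (ha : a.natDegree = N) (hb : b.natDegree = N)
    (hab : (a - b).natDegree = N) (h₁ : NotConstSquare (a * b))
    (h₂ : NotConstSquare (a * (a - b))) (h₃ : NotConstSquare (b * (a - b)))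
    (m : ℕ → k[X]) (hm : ∀ i, Multiplier a b (m i)) (hinj : Function.Injective m) :
    (∀ (T : Set ℕ) (J : ℕ), 0 < J → ∀ ε : ℝ, 0 < ε → ∃ l : ℝ, l ≤ 2 * Real.exp (-(ε ^ 2 * J / 4)) ∧
      Tendsto (proportion a b fun D => ε ≤ |(number m (fun F => ∃ r ∈ T,
        Nat.card (Sel k (twist K a b F)) = 4 ^ (r + 1)) J D : ℝ) / J - ∑' r : T, law r|)
          (degrees N) (nhds l)) ∧
    (∀ n : ℕ, Odd (n + N) → ∀ D ∈ NonSplitTwists a b n, ∀ i,
      AddGroup.FG (Pt (twist K a b (D * m i)) K)) ∧
    (∀ B J : ℕ, 0 < B → 0 < J → ∀ ε δ : ℝ, 0 < ε → 0 < δ → ∀ᶠ n : ℕ in degrees N,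
      proportion a b (fun D => 1.2042 + ε ≤ averageRank K a b m (2 * B) J D) n ≤
        2 * B * Real.exp (-(ε ^ 2 * J / (16 * B ^ 2))) + δ) ∧
    HasSum law 1 := by
  obtain ⟨-, -, h3, h4, h5, -, h7, -, -⟩ := all k h2 hi K a b N hco ha hb hab h₁ h₂ h₃ m hm hinj
  exact ⟨h3, h4, h5, h7⟩

end Pool.Agent.Results.MP_ff7320_nt.SelmerFrequencies
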